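import Pool.Agent.Helper49.PA.GoalsA

/-! Packet AM1: amalgamation over one point. -/

namespace PA49.PkAM1

open PA49

/-- The amalgam before separation. -/
def amK {L : Type} [Lattice L] [BoundedOrder L] {W Y : Type} (s : Sim L W) (t : Sim L Y)
    (w : W) (y : Y) : W ⊕ Y → W ⊕ Y → L
  | .inl x, .inl x' => s.k x x'
  | .inr z, .inr z' => t.k z z'
  | .inl x, .inr z => s.k x w ⊓ t.k y z
  | .inr z, .inl x => s.k x w ⊓ t.k y z

/-- The amalgam before separation. -/
def am {L : Type} [Lattice L] [BoundedOrder L] {W Y : Type} (s : Sim L W) (t : Sim L Y)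
    (w : W) (y : Y) : PSim L (W ⊕ Y) where
  k := amK s t w y
  refl := by
    rintro (x | z)
    · exact s.refl x
    · exact t.refl z
  symm := by
    rintro (x | z) (x' | z')
    · exact s.symm x x'
    · rfl
    · rfl
    · exact t.symm z z'
  tri := by
    rintro (x | z) (x' | z') (x'' | z'')
    · exact s.tri x x' x''
    · show s.k x x' ⊓ (s.k x' w ⊓ t.k y z'') ≤ s.k x w ⊓ t.k y z''
      refine le_inf ?_ (inf_le_right.trans inf_le_right)
      exact (inf_le_inf_left _ inf_le_left).trans (s.tri x x' w)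
    · show (s.k x w ⊓ t.k y z') ⊓ (s.k x'' w ⊓ t.k y z') ≤ s.k x x''
      refine (inf_le_inf inf_le_left inf_le_left).trans ?_
      rw [s.symm x'' w]
      exact s.tri x w x''
    · show (s.k x w ⊓ t.k y z') ⊓ t.k z' z'' ≤ s.k x w ⊓ t.k y z''
      refine le_inf (inf_le_left.trans inf_le_left) ?_
      exact (inf_le_inf_right _ inf_le_right).trans (t.tri y z' z'')
    · show (s.k x' w ⊓ t.k y z) ⊓ s.k x' x'' ≤ s.k x'' w ⊓ t.k y z
      refine le_inf ?_ (inf_le_left.trans inf_le_right)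
      rw [inf_comm]
      refine (inf_le_inf_left _ inf_le_left).trans ?_
      rw [s.symm x' x'']
      exact s.tri x'' x' w
    · show (s.k x' w ⊓ t.k y z) ⊓ (s.k x' w ⊓ t.k y z'') ≤ t.k z z''
      refine (inf_le_inf inf_le_right inf_le_right).trans ?_
      rw [t.symm y z]
      exact t.tri z y z''
    · show t.k z z' ⊓ (s.k x'' w ⊓ t.k y z') ≤ s.k x'' w ⊓ t.k y z
      refine le_inf (inf_le_right.trans inf_le_left) ?_
      rw [inf_comm]
      refine (inf_le_inf_right _ inf_le_right).trans ?_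
      rw [t.symm z z']
      exact t.tri y z' z
    · exact t.tri z z' z''

theorem am1 (h : G_SEP) : G_AM1 := by
  intro L _ _ W Y _ _ s t w y
  obtain ⟨V, hV, v, f, hsurj, hf⟩ := h L (W ⊕ Y) (am s t w y)
  refine ⟨V, hV, v, f ∘ Sum.inl, f ∘ Sum.inr, ?_, ?_, ?_, ?_, ?_⟩
  · intro x x'
    exact hf (Sum.inl x) (Sum.inl x')
  · intro z z'
    exact hf (Sum.inr z) (Sum.inr z')
  · apply v.sep
    have h1 := hf (Sum.inl w) (Sum.inr y)
    refine h1.trans ?_
    show s.k w w ⊓ t.k y y = ⊤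
    rw [s.refl, t.refl, inf_top_eq]
  · intro x z
    exact hf (Sum.inl x) (Sum.inr z)
  · intro p
    obtain ⟨q, hq⟩ := hsurj p
    rcases q with x | z
    · exact Or.inl ⟨x, hq⟩
    · exact Or.inr ⟨z, hq⟩

end PA49.PkAM1
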